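import Pool.Agent.Helper15.LR.Defs

set_option autoImplicit false

open Finset Filter
open scoped Classical Topology

namespace Pool.Agent.Helper15.LR

namespace C1

noncomputable section

/-- first level at which `a` and `x` differ (or `J`) -/
def lev {J : ℕ} (a x : Fin J → Bool) : ℕ :=
  if h : ∃ i : ℕ, ∃ hi : i < J, a ⟨i, hi⟩ ≠ x ⟨i, hi⟩ then Nat.find h else J

theorem lev_comm {J : ℕ} (a x : Fin J → Bool) : lev a x = lev x a := by
  have h : (fun i : ℕ => ∃ hi : i < J, a ⟨i, hi⟩ ≠ x ⟨i, hi⟩) =
      (fun i : ℕ => ∃ hi : i < J, x ⟨i, hi⟩ ≠ a ⟨i, hi⟩) := by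
    funext i
    simp only [ne_comm]
  unfold lev
  by_cases h1 : ∃ i : ℕ, ∃ hi : i < J, a ⟨i, hi⟩ ≠ x ⟨i, hi⟩
  · have h2 : ∃ i : ℕ, ∃ hi : i < J, x ⟨i, hi⟩ ≠ a ⟨i, hi⟩ := by
      obtain ⟨i, hi, h⟩ := h1
      exact ⟨i, hi, h.symm⟩
    rw [dif_pos h1, dif_pos h2]
    apply le_antisymm
    · apply Nat.find_min'
      obtain ⟨hi, h⟩ := Nat.find_spec h2
      exact ⟨hi, h.symm⟩
    · apply Nat.find_min'
      obtain ⟨hi, h⟩ := Nat.find_spec h1
      exact ⟨hi, h.symm⟩
  · have h2 : ¬ ∃ i : ℕ, ∃ hi : i < J, x ⟨i, hi⟩ ≠ a ⟨i, hi⟩ := by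
      rintro ⟨i, hi, h⟩
      exact h1 ⟨i, hi, h.symm⟩
    rw [dif_neg h1, dif_neg h2]

theorem lev_le {J : ℕ} (a x : Fin J → Bool) : lev a x ≤ J := by
  unfold lev
  split_ifs with h
  · obtain ⟨hi, _⟩ := Nat.find_spec h
    exact hi.le
  · exact le_rfl

theorem lev_ne {J : ℕ} (a x : Fin J → Bool) (j : ℕ) (hj : j < J) (h : lev a x = j) :
    a ⟨j, hj⟩ ≠ x ⟨j, hj⟩ := by
  unfold lev at h
  split_ifs at h with h1
  · subst h
    obtain ⟨hi, h2⟩ := Nat.find_spec h1
    exact h2
  · omega

theorem lev_eq_of_lt {J : ℕ} (a x : Fin J → Bool) (j : ℕ) (h : lev a x = j) (i : ℕ) (hi : i < J)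
    (hij : i < j) : x ⟨i, hi⟩ = a ⟨i, hi⟩ := by
  unfold lev at h
  split_ifs at h with h1
  · subst h
    have := Nat.find_min h1 hij
    by_contra hne
    exact this ⟨hi, fun h => hne h.symm⟩
  · by_contra hne
    exact h1 ⟨i, hi, fun h => hne h.symm⟩

/-- the weight of a level -/
def q (J j : ℕ) : ℝ := if j < J then (1 / 2 : ℝ) ^ (j + 1) else (1 / 2 : ℝ) ^ J

theorem q_pos (J j : ℕ) : 0 < q J j := by
  unfold q; split_ifs <;> positivity

theorem q_ge (J j : ℕ) : (1 / 2 : ℝ) ^ J ≤ q J j := by
  unfold q
  split_ifs with h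
  · exact pow_le_pow_of_le_one (by norm_num) (by norm_num) h
  · exact le_rfl

theorem q_le_one (J j : ℕ) : q J j ≤ 1 := by
  unfold q
  split_ifs with h
  · exact pow_le_one₀ (by norm_num) (by norm_num)
  · exact pow_le_one₀ (by norm_num) (by norm_num)

theorem card_lev {J : ℕ} (a : Fin J → Bool) (j : ℕ) (hj : j ≤ J) :
    ((univ.filter (fun x : Fin J → Bool => lev a x = j)).card : ℝ) * (1 / 2) ^ J ≤ q J j := by
  rcases lt_or_eq_of_le hj with hj | hj
  · have hsub : (univ.filter (fun x : Fin J → Bool => lev a x = j)) ⊆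
        Fintype.piFinset (fun i : Fin J => if (i : ℕ) < j then {a i} else
          if (i : ℕ) = j then {! a i} else univ) := by
      intro x hx
      rw [mem_filter] at hx
      rw [Fintype.mem_piFinset]
      intro i
      split_ifs with h1 h2
      · rw [mem_singleton]
        exact lev_eq_of_lt a x j hx.2 i i.2 h1
      · rw [mem_singleton]
        have := lev_ne a x j hj hx.2
        have hi : (⟨j, hj⟩ : Fin J) = i := Fin.ext h2.symm
        rw [hi] at this
        revert this
        cases a i <;> cases x i <;> simp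
      · exact mem_univ _
    have hcard := card_le_card hsub
    rw [Fintype.card_piFinset] at hcard
    have hprod : (∏ i : Fin J, (if (i : ℕ) < j then {a i} else
          if (i : ℕ) = j then {! a i} else (univ : Finset Bool)).card) = 2 ^ (J - j - 1) := by
      have h1 : ∀ i : Fin J, (if (i : ℕ) < j then {a i} else
          if (i : ℕ) = j then {! a i} else (univ : Finset Bool)).card =
          (fun i : ℕ => if i ≤ j then 1 else 2) i := by
        intro i
        split_ifs with h1 h2 
        · simp [h1.le]
        · simp [h2]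
        · have : ¬ ((i : ℕ) ≤ j) := by omega
          simp [this]
      rw [Finset.prod_congr rfl (fun i _ => h1 i)]
      rw [Fin.prod_univ_eq_prod_range (fun i : ℕ => if i ≤ j then 1 else 2) J]
      rw [Finset.prod_ite]
      simp only [prod_const_one, prod_const, one_mul]
      congr 1
      have : (range J).filter (fun x => ¬ x ≤ j) = Finset.Ico (j + 1) J := by
        ext x
        simp only [mem_filter, mem_range, Finset.mem_Ico]
        omega
      rw [this, Nat.card_Ico]
      omega
    rw [hprod] at hcard
    have h2 : ((univ.filter (fun x : Fin J → Bool => lev a x = j)).card : ℝ) ≤ 2 ^ (J - j - 1) := by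
      exact_mod_cast hcard
    have h3 : q J j = (2 : ℝ) ^ (J - j - 1) * (1 / 2) ^ J := by
      unfold q
      rw [if_pos hj]
      obtain ⟨k, hk⟩ : ∃ k, J = k + (j + 1) := ⟨J - j - 1, by omega⟩
      have h4 : J - j - 1 = k := by omega
      rw [h4, hk, pow_add (1 / 2 : ℝ) k (j + 1), ← mul_assoc, ← mul_pow]
      norm_num
    rw [h3]
    exact mul_le_mul_of_nonneg_right h2 (by positivity)
  · subst hj
    have hsub : (univ.filter (fun x : Fin j → Bool => lev a x = j)) ⊆ {a} := by
      intro x hx
      rw [mem_filter] at hx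
      rw [mem_singleton]
      funext i
      exact lev_eq_of_lt a x j hx.2 i i.2 i.2
    have hcard := card_le_card hsub
    rw [card_singleton] at hcard
    have h2 : ((univ.filter (fun x : Fin j → Bool => lev a x = j)).card : ℝ) ≤ 1 := by
      exact_mod_cast hcard
    unfold q
    rw [if_neg (lt_irrefl _)]
    calc _ ≤ 1 * (1 / 2 : ℝ) ^ j := mul_le_mul_of_nonneg_right h2 (by positivity)
      _ = _ := one_mul _

theorem mem_nb {V : Type} [Fintype V] (F : Set (Sym2 V)) (v u : V) :
    u ∈ nb F v ↔ s(v, u) ∈ F := by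
  unfold nb
  rw [mem_filter]
  exact ⟨fun h => h.2, fun h => ⟨mem_univ _, h⟩⟩

/-- greedy colouring -/
theorem greedy {V : Type} [Fintype V] (F : Set (Sym2 V)) (L : Sym2 V → Finset ℕ)
    (hd : ∀ u v, s(u, v) ∈ F → dg F u + dg F v ≤ (L s(u, v)).card) : LC F L := by
  have key : ∀ S : Finset (Sym2 V), (∀ e ∈ S, e ∈ F) → LC (S : Set (Sym2 V)) L := by
    intro S
    induction S using Finset.induction_on with
    | empty =>
      intro _
      exact ⟨fun _ => 0, by simp, by simp⟩
    | insert e S he ih =>
      intro hS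
      obtain ⟨f, hf1, hf2⟩ := ih (fun e' he' => hS e' (mem_insert_of_mem he'))
      have heF := hS e (mem_insert_self _ _)
      have hSF : ∀ e' ∈ S, e' ∈ F := fun e' he' => hS e' (mem_insert_of_mem he')
      clear ih
      revert he heF hS
      refine Sym2.ind (fun a b => ?_) e
      intro he hS heF
      have hlt : ∀ a b : V, s(a, b) ∈ F → s(a, b) ∉ S → (nb (S : Set (Sym2 V)) a).card < dg F a := by
        intro a b h1 h2
        unfold dg
        apply card_lt_card
        rw [Finset.ssubset_iff_of_subset]
        · refine ⟨b, ?_, ?_⟩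
          · rw [mem_nb]; exact h1
          · rw [mem_nb]; intro h; exact h2 (by simpa using h)
        · intro u hu
          rw [mem_nb] at hu ⊢
          exact hSF _ (by simpa using hu)
      have h1 := hlt a b heF he
      have h2 := hlt b a (by rw [Sym2.eq_swap]; exact heF) (by rw [Sym2.eq_swap]; exact he)
      have h3 := hd a b heF
      have hcard : ((nb (S : Set (Sym2 V)) a).image (fun u => f s(a, u)) ∪
          (nb (S : Set (Sym2 V)) b).image (fun u => f s(b, u))).card < (L s(a, b)).card := by
        have h4 := card_union_le ((nb (S : Set (Sym2 V)) a).image (fun u => f s(a, u)))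
          ((nb (S : Set (Sym2 V)) b).image (fun u => f s(b, u)))
        have h5 : ((nb (S : Set (Sym2 V)) a).image (fun u => f s(a, u))).card ≤ _ := card_image_le
        have h6 : ((nb (S : Set (Sym2 V)) b).image (fun u => f s(b, u))).card ≤ _ := card_image_le
        omega
      obtain ⟨c, hc1, hc2⟩ := Finset.exists_mem_notMem_of_card_lt_card hcard
      rw [mem_union, not_or] at hc2
      obtain ⟨hca, hcb⟩ := hc2
      have hforb : ∀ x y : V, s(x, y) ∈ S → (x = a ∨ x = b) → f s(x, y) ≠ c := by
        intro x y hxy hx hcc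
        rcases hx with rfl | rfl
        · apply hca
          rw [mem_image]
          exact ⟨y, by rw [mem_nb]; simpa using hxy, hcc⟩
        · apply hcb
          rw [mem_image]
          exact ⟨y, by rw [mem_nb]; simpa using hxy, hcc⟩
      refine ⟨fun e => if e = s(a, b) then c else f e, ?_, ?_⟩
      · intro e' he'
        by_cases h : e' = s(a, b)
        · simp only [h, if_true]; exact hc1
        · simp only [if_neg h]
          apply hf1
          rw [coe_insert, Set.mem_insert_iff] at he'
          exact he'.resolve_left h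
      · intro u v w huv huw hvw
        rw [coe_insert, Set.mem_insert_iff] at huv huw
        by_cases h1 : s(u, v) = s(a, b)
        · by_cases h2 : s(u, w) = s(a, b)
          · exfalso
            rw [← h1] at h2
            rw [Sym2.eq_iff] at h2
            rcases h2 with h2 | h2
            · exact hvw h2.2.symm
            · exact hvw (h2.1.symm.trans h2.2.symm)
          · simp only [if_pos h1, if_neg h2]
            have hu : u = a ∨ u = b := by
              rw [Sym2.eq_iff] at h1
              rcases h1 with h | h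
              · exact Or.inl h.1
              · exact Or.inr h.1
            exact fun h => hforb u w (by simpa using huw.resolve_left h2) hu h.symm
        · by_cases h2 : s(u, w) = s(a, b)
          · simp only [if_neg h1, if_pos h2]
            have hu : u = a ∨ u = b := by
              rw [Sym2.eq_iff] at h2
              rcases h2 with h | h
              · exact Or.inl h.1
              · exact Or.inr h.1
            exact hforb u v (by simpa using huv.resolve_left h1) hu
          · simp only [if_neg h1, if_neg h2]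
            exact hf2 u v w (huv.resolve_left h1) (huw.resolve_left h2) hvw
  have hfin : (F.toFinset : Set (Sym2 V)) = F := by simp
  have := key F.toFinset (by simp)
  rwa [hfin] at this

/-- combining levels -/
theorem combine {V : Type} (F : Set (Sym2 V)) (L : Sym2 V → Finset ℕ) (N : ℕ) (lv : Sym2 V → ℕ)
    (g : ℕ → ℕ) (hlv : ∀ e ∈ F, lv e < N)
    (h : ∀ j < N, LC {e | e ∈ F ∧ lv e = j} (fun e => (L e).filter (fun c => g c = j))) :
    LC F L := by
  choose! f hf1 hf2 using h
  refine ⟨fun e => f (lv e) e, ?_, ?_⟩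
  · intro e he
    have := hf1 (lv e) (hlv e he) e ⟨he, rfl⟩
    exact (mem_filter.mp this).1
  · intro u v w huv huw hvw
    by_cases h : lv s(u, v) = lv s(u, w)
    · have := hf2 (lv s(u, v)) (hlv _ huv) u v w ⟨huv, rfl⟩ ⟨huw, h.symm⟩ hvw
      simp only
      rw [← h]
      exact this
    · intro heq
      have h1 := (mem_filter.mp (hf1 (lv s(u, v)) (hlv _ huv) _ ⟨huv, rfl⟩)).2
      have h2 := (mem_filter.mp (hf1 (lv s(u, w)) (hlv _ huw) _ ⟨huw, rfl⟩)).2
      simp only at heq
      rw [heq] at h1
      exact h (h1.symm.trans h2)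

end

end C1

end Pool.Agent.Helper15.LR
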