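import Pool.Agent.Helper95.LR.C1a

set_option autoImplicit false

open Finset Filter
open scoped Classical Topology

namespace Pool.Agent.Helper15.LR

namespace C1

noncomputable section

theorem sqrt_le_self_of {M lam : ℝ} (hM : 0 ≤ M) (h : 4 * lam ≤ M) :
    Real.sqrt (4 * M * lam) ≤ M := by
  rw [show M = Real.sqrt (M ^ 2) by rw [Real.sqrt_sq hM]]
  apply Real.sqrt_le_sqrt
  rw [Real.sqrt_sq hM]
  nlinarith

theorem exp_eq {M lam : ℝ} (hM : 0 < M) (hl : 0 ≤ lam) :
    -(Real.sqrt (4 * M * lam)) ^ 2 / (4 * M) = -lam := by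
  rw [Real.sq_sqrt (by positivity)]
  field_simp

/-- patterns at level `j` -/
def lvSet {J : ℕ} (a : Fin J → Bool) (j : ℕ) : Set (Fin J → Bool) := {x | lev a x = j}

theorem mem_lvSet {J : ℕ} (a : Fin J → Bool) (j : ℕ) (x : Fin J → Bool) :
    x ∈ lvSet a j ↔ lev a x = j := Iff.rfl

/-- singleton -/
def sg {κ : Type} (j : κ) : Set κ := {j}

theorem mem_sg {κ : Type} (j x : κ) : x ∈ sg j ↔ x = j := Iff.rfl

/-- random signs -/
theorem signs (hAv : Avoid_stmt) (hCh : Chernoff_stmt) {V : Type} [Fintype V] (F : Set (Sym2 V))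
    (J : ℕ) (D M₀ lam : ℝ) (hDM : D ≤ M₀) (hM : 0 < M₀) (hlam : 0 ≤ lam)
    (hdeg : ∀ v, (dg F v : ℝ) ≤ D)
    (h4 : 4 * lam ≤ (1 / 2) ^ J * M₀)
    (hcount : (Fintype.card V : ℝ) * (2 ^ J * (J + 1)) * (2 * Real.exp (-lam)) < 1) :
    ∃ σ : V → Fin J → Bool, ∀ v a j, j ≤ J →
      (((nb F v).filter (fun u => lev a (σ u) = j)).card : ℝ) ≤
        q J j * D + Real.sqrt (4 * (q J j * M₀) * lam) := by
  set w : V → (Fin J → Bool) → ℝ := fun _ _ => (1 / 2) ^ J with hw
  have hw0 : ∀ i k, 0 ≤ w i k := by intro i k; simp only [hw]; positivity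
  have hw1 : ∀ i, ∑ k, w i k = 1 := by
    intro i
    simp only [hw, sum_const, nsmul_eq_mul]
    rw [Finset.card_univ, Fintype.card_fun, Fintype.card_bool, Fintype.card_fin]
    push_cast
    rw [← mul_pow]
    norm_num
  have hmean : ∀ (v : V) (a : Fin J → Bool) (j : ℕ), j ≤ J →
      ∑ i ∈ nb F v, ∑ k, (if k ∈ lvSet a j then w i k else 0) ≤ q J j * D := by
    intro v a j hj
    have h1 : ∀ i ∈ nb F v, ∑ k, (if k ∈ lvSet a j then w i k else 0) ≤ q J j := by
      intro i _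
      rw [← Finset.sum_filter]
      simp only [hw, sum_const, nsmul_eq_mul, mem_lvSet]
      convert card_lev a j hj
    calc _ ≤ ∑ i ∈ nb F v, q J j := Finset.sum_le_sum h1
      _ = (dg F v : ℝ) * q J j := by simp [dg]
      _ ≤ D * q J j := mul_le_mul_of_nonneg_right (hdeg v) (q_pos J j).le
      _ = _ := mul_comm _ _
  set E : V × (Fin J → Bool) × Fin (J + 1) → Set (V → Fin J → Bool) := fun p =>
    {x | Real.sqrt (4 * (q J p.2.2 * M₀) * lam) ≤
      |(((nb F p.1).filter (fun i => x i ∈ lvSet p.2.1 (p.2.2 : ℕ))).card : ℝ) -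
        ∑ i ∈ nb F p.1, ∑ k, (if k ∈ lvSet p.2.1 (p.2.2 : ℕ) then w i k else 0)|} with hE
  have hPP : ∀ p, PP w (E p) ≤ 2 * Real.exp (-lam) := by
    rintro ⟨v, a, j⟩
    have hj : (j : ℕ) ≤ J := by omega
    have hqM : 0 < q J j * M₀ := mul_pos (q_pos J j) hM
    have hq4 : 4 * lam ≤ q J j * M₀ :=
      h4.trans (mul_le_mul_of_nonneg_right (q_ge J j) hM.le)
    have := hCh V (Fin J → Bool) w (nb F v) (fun _ => lvSet a (j : ℕ)) (q J j * M₀)
      (Real.sqrt (4 * (q J j * M₀) * lam)) hw0 hw1 hqM (Real.sqrt_nonneg _)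
      (sqrt_le_self_of hqM.le hq4)
      ((hmean v a j hj).trans (mul_le_mul_of_nonneg_left hDM (q_pos J j).le))
    rw [exp_eq hqM hlam] at this
    exact this
  have hsum : ∑ p, PP w (E p) < 1 := by
    calc ∑ p, PP w (E p) ≤ ∑ p : V × (Fin J → Bool) × Fin (J + 1), 2 * Real.exp (-lam) :=
          Finset.sum_le_sum (fun p _ => hPP p)
      _ = (Fintype.card V : ℝ) * (2 ^ J * (J + 1)) * (2 * Real.exp (-lam)) := by
          rw [sum_const, nsmul_eq_mul, Finset.card_univ, Fintype.card_prod, Fintype.card_prod,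
            Fintype.card_fun, Fintype.card_bool, Fintype.card_fin, Fintype.card_fin]
          push_cast
          ring
      _ < 1 := hcount
  obtain ⟨σ, hσ, _⟩ := hAv V (Fin J → Bool) (V × (Fin J → Bool) × Fin (J + 1)) w E hw0 hw1 hsum
  refine ⟨σ, ?_⟩
  intro v a j hj
  have h1 := hσ (v, a, ⟨j, by omega⟩)
  simp only [hE, Set.mem_ofPred_eq, not_le] at h1
  have h2 := hmean v a j hj
  have h3 := (abs_lt.mp h1).2
  simp only [mem_lvSet] at h2 h3 ⊢
  linarith

/-- random colour classes -/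
theorem colours (hAv : Avoid_stmt) (hCh : Chernoff_stmt) (ι : Type) [Fintype ι]
    (L : ι → Finset ℕ) (m : ℕ) (hm : 0 < m) (hL : ∀ i, (L i).card = m) (J : ℕ) (t Mb : ℕ → ℝ)
    (lam : ℝ) (ht : ∀ j ≤ J, 0 ≤ t j) (hsum : ∑ j ∈ range (J + 1), t j = m) (hlam : 0 ≤ lam)
    (hMb0 : ∀ j ≤ J, 0 < Mb j)
    (hMb : ∀ j ≤ J, t j ≤ Mb j) (h4 : ∀ j ≤ J, 4 * lam ≤ Mb j)
    (hcount : (Fintype.card ι : ℝ) * (J + 1) * (2 * Real.exp (-lam)) < 1) :
    ∃ g : ℕ → ℕ, ∀ i, ∀ j ≤ J, t j - Real.sqrt (4 * Mb j * lam) ≤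
      (((L i).filter (fun c => g c = j)).card : ℝ) := by
  set U : Finset ℕ := univ.biUnion L with hU
  have hmR : (0 : ℝ) < m := by exact_mod_cast hm
  set w : U → Fin (J + 1) → ℝ := fun _ k => t k / m with hw
  have hw0 : ∀ i k, 0 ≤ w i k := by
    intro i k
    simp only [hw]
    exact div_nonneg (ht k (by omega)) hmR.le
  have hw1 : ∀ i, ∑ k, w i k = 1 := by
    intro i
    simp only [hw]
    rw [← Finset.sum_div, Fin.sum_univ_eq_sum_range (fun k : ℕ => t k) (J + 1), hsum]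
    exact div_self hmR.ne'
  set T : ι → Finset U := fun i => univ.filter (fun c : U => (c : ℕ) ∈ L i) with hT
  have hmap : ∀ (i : ι) (P : ℕ → Prop), ((T i).filter (fun c : U => P c)).card =
      ((L i).filter P).card := by
    intro i P
    apply Finset.card_bij (fun (c : U) _ => (c : ℕ))
    · intro c hc
      rw [mem_filter] at hc ⊢
      simp only [hT, mem_filter, mem_univ, true_and] at hc
      exact hc
    · intro c _ c' _ h
      exact Subtype.ext h
    · intro c hc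
      rw [mem_filter] at hc
      have hcU : c ∈ U := by
        rw [hU, mem_biUnion]
        exact ⟨i, mem_univ _, hc.1⟩
      refine ⟨⟨c, hcU⟩, ?_, rfl⟩
      rw [mem_filter]
      simp only [hT, mem_filter, mem_univ, true_and]
      exact hc
  have hTc : ∀ i, (T i).card = m := by
    intro i
    have := hmap i (fun _ => True)
    simp only [filter_true] at this
    rw [this, hL]
  have hmean : ∀ (i : ι) (j : Fin (J + 1)),
      ∑ c ∈ T i, ∑ k, (if k ∈ sg j then w c k else 0) = t j := by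
    intro i j
    have h1 : ∀ c ∈ T i, ∑ k, (if k ∈ sg j then w c k else 0) = t j / m := by
      intro c _
      simp only [mem_sg, hw]
      rw [Finset.sum_ite_eq' univ j]
      simp
    rw [Finset.sum_congr rfl h1, sum_const, nsmul_eq_mul, hTc]
    field_simp
  set E : ι × Fin (J + 1) → Set (U → Fin (J + 1)) := fun p =>
    {x | Real.sqrt (4 * Mb p.2 * lam) ≤
      |(((T p.1).filter (fun c => x c ∈ sg p.2)).card : ℝ) -
        ∑ c ∈ T p.1, ∑ k, (if k ∈ sg p.2 then w c k else 0)|} with hE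
  have hPP : ∀ p, PP w (E p) ≤ 2 * Real.exp (-lam) := by
    rintro ⟨i, j⟩
    have hj : (j : ℕ) ≤ J := by omega
    have := hCh U (Fin (J + 1)) w (T i) (fun _ => sg j) (Mb j)
      (Real.sqrt (4 * Mb j * lam)) hw0 hw1 (hMb0 j hj) (Real.sqrt_nonneg _)
      (sqrt_le_self_of (hMb0 j hj).le (h4 j hj))
      (by rw [hmean i j]; exact hMb j hj)
    rw [exp_eq (hMb0 j hj) hlam] at this
    exact this
  have hsum' : ∑ p, PP w (E p) < 1 := by
    calc ∑ p, PP w (E p) ≤ ∑ p : ι × Fin (J + 1), 2 * Real.exp (-lam) :=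
          Finset.sum_le_sum (fun p _ => hPP p)
      _ = (Fintype.card ι : ℝ) * (J + 1) * (2 * Real.exp (-lam)) := by
          rw [sum_const, nsmul_eq_mul, Finset.card_univ, Fintype.card_prod, Fintype.card_fin]
          push_cast
          ring
      _ < 1 := hcount
  obtain ⟨x, hx, _⟩ := hAv U (Fin (J + 1)) (ι × Fin (J + 1)) w E hw0 hw1 hsum'
  obtain ⟨g, hg⟩ : ∃ g : ℕ → ℕ, ∀ (c : ℕ) (h : c ∈ U), g c = (x ⟨c, h⟩ : ℕ) :=
    ⟨fun c => if h : c ∈ U then (x ⟨c, h⟩ : ℕ) else 0, fun c h => dif_pos h⟩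
  refine ⟨g, ?_⟩
  intro i j hj
  have h1 := hx (i, ⟨j, by omega⟩)
  simp only [hE, Set.mem_ofPred_eq, not_le] at h1
  rw [hmean] at h1
  have h2 := (abs_lt.mp h1).1
  have h3 : ((T i).filter (fun c : U => g c = j)).card =
      ((L i).filter (fun c => g c = j)).card := by
    convert hmap i (fun c => g c = j)
  rw [← h3]
  have h4 : (T i).filter (fun c => x c ∈ sg (⟨j, by omega⟩ : Fin (J + 1))) =
      (T i).filter (fun c : U => g c = j) := by
    apply Finset.filter_congr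
    intro c _
    rw [mem_sg, hg c c.2, Fin.ext_iff]
  rw [h4] at h2
  simp only at h2
  linarith

end

end C1

end Pool.Agent.Helper15.LR
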